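import Pool.Agent.MP_3fed84_gt.Mg.Final

open scoped Manifold ContDiff
open Pool.Agent.MP_3fed84_gt

namespace Pool.Agent.Results.MP_3fed84_gt.Ambrose

/-- The conjecture of Ambrose: the pullback of the metric along the exponential map determines a
pointed simply connected Riemannian manifold whose exponential map is defined everywhere. -/
theorem result {E : Type} [NormedAddCommGroup E] [InnerProductSpace ℝ E] [FiniteDimensional ℝ E]
    {M : Type} [TopologicalSpace M] [ChartedSpace E M] [IsManifold 𝓘(ℝ, E) ∞ M]
    [T2Space M] [SimplyConnectedSpace M]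
    {N : Type} [TopologicalSpace N] [ChartedSpace E N] [IsManifold 𝓘(ℝ, E) ∞ N]
    [T2Space N] [SimplyConnectedSpace N]
    (g : RiemMetric E M) (k : RiemMetric E N) (p : M) (q : N)
    (expM : E → M) (expN : E → N) (hM : IsExp g p expM) (hN : IsExp k q expN)
    (L : E ≃L[ℝ] E) (hL : ∀ a b : E, ip k q (L a) (L b) = ip g p a b)
    (hh : ∀ x a b : E, pullback k expN (L x) (L a) (L b) = pullback g expM x a b) :
    ∃ F : Diffeo E M N, F p = q ∧ (∀ x : E, F (expM x) = expN (L x)) ∧
      ∀ (m : M) (a b : E), pullback k F m a b = ip g m a b :=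
  ambrose g k p q expM expN hM hN L hL hh

end Pool.Agent.Results.MP_3fed84_gt.Ambrose
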